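import Pool.Agent.P5bf.Arrays
import Pool.Agent.P5bf.QuotUp

/-!
MP_5bf80f_an: the maps of Q1 pass from the bidual quotient `X** / X` to `X`, for every `X`; for
asymptotically uniformly smooth spaces the maps exist for `X` iff they exist for `X** / X`.
-/

set_option autoImplicit false

namespace Pool.Agent.Results.MP_5bf80f_an.BidualQuotient

open Pool.Agent.P5bf

universe u

theorem result :
    -- (1) if the maps exist for the bidual quotient of `X`, they exist for `X`
    (∀ (X Z : Type u) [NormedAddCommGroup X] [NormedSpace ℝ X]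
      [NormedAddCommGroup Z] [NormedSpace ℝ Z] [CompleteSpace Z]
      (q : StrongDual ℝ (StrongDual ℝ X) →L[ℝ] Z),
      IsBidualQuotient X Z q → HasMaps Z → HasMaps X) ∧
    -- (2) if `X` is isomorphic to an asymptotically uniformly smooth space `Y`, the maps exist
    -- for `X` iff they exist for the bidual quotient of `Y`
    (∀ (X Y Z : Type u) [NormedAddCommGroup X] [NormedSpace ℝ X]
      [NormedAddCommGroup Y] [NormedSpace ℝ Y]
      [NormedAddCommGroup Z] [NormedSpace ℝ Z] [CompleteSpace Z]
      (_ : X ≃L[ℝ] Y) (q : StrongDual ℝ (StrongDual ℝ Y) →L[ℝ] Z),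
      AUS Y → IsBidualQuotient Y Z q → (HasMaps X ↔ HasMaps Z)) ∧
    -- (3) no space of the tower class has the maps
    (∀ (X : Type u) [NormedAddCommGroup X] [NormedSpace ℝ X], Tower X → ¬ HasMaps X) := by
  refine ⟨?_, ?_, ?_⟩
  · intro X Z _ _ _ _ _ q hq hZ
    rw [hasMaps_iff_not_conc] at hZ ⊢
    exact fun hX => hZ (conc_quotient X q hq hX)
  · intro X Y Z _ _ _ _ _ _ _ e q hY hq
    rw [hasMaps_iff_not_conc, hasMaps_iff_not_conc, not_iff_not]
    constructor
    · intro hX
      exact conc_quotient Y q hq (conc_of_concU (isoU e.symm (concU_of_conc hX)))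
    · intro hZ
      exact conc_of_concU (isoU e (stepU hY q hq (concU_of_conc hZ)))
  · intro X _ _ h
    exact noMaps_of_conc (conc_of_concU (towerU h))

end Pool.Agent.Results.MP_5bf80f_an.BidualQuotient
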