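import Pool.Agent.P5bf.TypeConc

/-!
MP_5bf80f_an: the maps of Q1 exist for a normed space exactly when interlaced concentration fails.
-/

set_option autoImplicit false

namespace Pool.Agent.Results.MP_5bf80f_an.Dichotomy

open Pool.Agent.P5bf

universe u

theorem result :
    -- (1) the maps of Q1 exist iff the concentration property fails
    (∀ (X : Type u) [NormedAddCommGroup X] [NormedSpace ℝ X], HasMaps X ↔ ¬ Conc X) ∧
    -- the concentration property fails iff `X` is `ε`-bad for some `ε > 0`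
    (∀ (X : Type u) [NormedAddCommGroup X] [NormedSpace ℝ X],
      ¬ Conc X ↔ ∃ ε : ℝ, 0 < ε ∧ Bad X ε) ∧
    -- (2) in this case they exist with `ℓ = 2` and with a Hamming lower bound
    (∀ (X : Type u) [NormedAddCommGroup X] [NormedSpace ℝ X] (ε : ℝ), 0 < ε → Bad X ε →
      ∀ k : ℕ, ∃ g : (Fin (2 * k) → ℕ) → X, ∀ x y : Fin (2 * k) → ℕ,
        StrictMono x → StrictMono y →
        2 * ((Finset.univ.filter (fun i : Fin (2 * k) => i.val < k ∧ x i ≠ y i)).card : ℝ)
          ≤ ‖g x - g y‖ ∧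
        ‖g x - g y‖ ≤ 288 / ε ^ 2 * (hammingDist x y : ℝ)) ∧
    -- (3) and all finite Hamming spaces embed with distortion at most `144 / ε ^ 2`
    (∀ (X : Type u) [NormedAddCommGroup X] [NormedSpace ℝ X] (ε : ℝ), 0 < ε → Bad X ε →
      ∀ n N : ℕ, ∃ g : (Fin n → Fin N) → X, ∀ a b : Fin n → Fin N,
        (hammingDist a b : ℝ) ≤ ‖g a - g b‖ ∧
        ‖g a - g b‖ ≤ 144 / ε ^ 2 * (hammingDist a b : ℝ)) ∧
    -- (4) spaces of nontrivial type have the concentration property, hence no maps
    (∀ (X : Type u) [NormedAddCommGroup X] [NormedSpace ℝ X], NontrivialType X →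
      Conc X ∧ ¬ HasMaps X) := by
  refine ⟨fun X _ _ => ⟨fun h hC => noMaps_of_conc hC h, hasMaps_of_not_conc⟩,
    fun X _ _ => not_conc_iff X, ?_, ?_, ?_⟩
  · intro X _ _ ε hε h
    exact maps_of_fail ε hε h
  · intro X _ _ ε hε h
    exact cubes_of_bad ε hε h
  · intro X _ _ hX
    exact ⟨conc_of_type hX, fun h => noMaps_of_conc (conc_of_type hX) h⟩

end Pool.Agent.Results.MP_5bf80f_an.Dichotomy
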