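import Pool.Agent.P5bf.Arrays

/-!
MP_5bf80f_an: the maps of Q1 exist for `X` iff they exist for its bidual, and they exist as soon
as some quotient of the bidual (for example the bidual quotient) has arrays with linearly
separated interlaced sums.
-/

set_option autoImplicit false

namespace Pool.Agent.Results.MP_5bf80f_an.QuotientArrays

open Pool.Agent.P5bf

universe u

theorem result :
    -- (1) the maps exist for a space iff they exist for its bidual
    (∀ (X : Type u) [NormedAddCommGroup X] [NormedSpace ℝ X],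
      HasMaps X ↔ HasMaps (StrongDual ℝ (StrongDual ℝ X))) ∧
    -- (2) they exist if some Banach space quotient of the bidual has arrays
    (∀ (X Z : Type u) [NormedAddCommGroup X] [NormedSpace ℝ X]
      [NormedAddCommGroup Z] [NormedSpace ℝ Z] [CompleteSpace Z]
      (q : StrongDual ℝ (StrongDual ℝ X) →L[ℝ] Z), Function.Surjective q → HasArrays Z →
      HasMaps X ∧
        ∀ (Y : Type u) [NormedAddCommGroup Y] [NormedSpace ℝ Y] (g : X → Y),
          CoarseLipEmb X Y g → HasMaps Y) ∧
    -- (3) `l_1`-like sequences give arrays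
    (∀ (Z : Type u) [NormedAddCommGroup Z] [NormedSpace ℝ Z] (M δ : ℝ), 0 < δ →
      (∀ k : ℕ, ∃ z : ℕ → Z, (∀ n, ‖z n‖ ≤ M) ∧ ∀ A B : Finset ℕ,
        A.card ≤ k → B.card ≤ k → Disjoint A B →
        δ * (A.card + B.card : ℝ) ≤ ‖∑ n ∈ A, z n - ∑ n ∈ B, z n‖) → HasArrays Z) := by
  refine ⟨fun X _ _ => hasMaps_iff_bidual X, ?_, ?_⟩
  · intro X Z _ _ _ _ _ q hq hz
    have h1 := hasMaps_of_arrays X q hq hz
    refine ⟨h1, fun Y _ _ g hg => ?_⟩
    rw [hasMaps_iff_not_conc]
    intro hY
    exact noMaps_of_conc (conc_of_coarse g hg hY) h1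
  · intro Z _ _ M δ hδ hz
    exact arrays_of_seq M δ hδ hz

end Pool.Agent.Results.MP_5bf80f_an.QuotientArrays
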