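import Pool.Agent.P5bf.LocC

/-!
MP_5bf80f_an: having the maps of Q1 is a three-space property in the following sense: if they
exist for `X`, they exist for each closed subspace `Y` or for the quotient `X / Y`; and this is
an equivalence if `Y` is locally complemented in `X`.
-/

set_option autoImplicit false

namespace Pool.Agent.Results.MP_5bf80f_an.ThreeSpace

open Pool.Agent.P5bf

universe u

theorem result :
    ∀ (X : Type u) [NormedAddCommGroup X] [NormedSpace ℝ X] (Y : Submodule ℝ X)
      [IsClosed (Y : Set X)],
      -- (1) the three-space property, for the maps and for the concentration property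
      (HasMaps X → HasMaps Y ∨ HasMaps (X ⧸ Y)) ∧ (Conc Y → Conc (X ⧸ Y) → Conc X) ∧
      -- (2) the converse for locally complemented subspaces
      (LocCompl X Y → (HasMaps X ↔ HasMaps Y ∨ HasMaps (X ⧸ Y))) := by
  intro X _ _ Y _
  exact ⟨hasMaps_three X Y, conc_three_sub X Y, hasMaps_locCompl X Y⟩

end Pool.Agent.Results.MP_5bf80f_an.ThreeSpace
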